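import Pool.Agent.N242.PC.Stm

/-!
# Project PC (helper242), task BDT (helper402): boundary points of other tiles
-/

set_option autoImplicit false

open Metric Set Filter Topology

namespace Pool.Agent.N402.PC

open Pool.Agent.N242.PC

universe u

section

variable {X : Type u} [NormedAddCommGroup X] [NormedSpace ℝ X]

/-- a half ball is contained in the tile -/
theorem half (h : S_SET.{u}) {𝒯 : Set (Set X)} (hT : CTiling 𝒯) {T₀ T : Set X} (h0 : T₀ ∈ 𝒯)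
    (hT1 : T ∈ 𝒯) (hne : T₀ ≠ T) {x : X} (hx : x ∈ T₀) {ρ d : ℝ} (hdρ : d ≤ ρ)
    (hbd : ∀ S ∈ 𝒯, ∀ y ∈ frontier S, ‖y - x‖ < ρ → y ∈ T₀) (hm : (T ∩ ball x d).Nonempty) :
    ∃ (f : X →L[ℝ] ℝ) (β : ℝ), ‖f‖ = 1 ∧ β - f x < d ∧
      ∀ z, ‖z - x‖ < ρ → β < f z → z ∈ interior T := by
  obtain ⟨g, γ, hg1, hg2, hg3, hg4⟩ := h X 𝒯 hT T₀ h0 T hT1 hne
  have hg0 : g ≠ 0 := by
    rintro rfl
    obtain ⟨p, hp⟩ := hT.int T₀ h0
    obtain ⟨q, hq⟩ := hT.int T hT1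
    have h1 := hg3 p hp
    have h2 := hg4 q hq
    simp only [zero_apply] at h1 h2
    linarith
  have hn : 0 < ‖g‖ := norm_pos_iff.2 hg0
  obtain ⟨f, hf⟩ : ∃ f : X →L[ℝ] ℝ, f = ‖g‖⁻¹ • g := ⟨_, rfl⟩
  obtain ⟨β, hβ⟩ : ∃ β : ℝ, β = ‖g‖⁻¹ * γ := ⟨_, rfl⟩
  have hfz : ∀ z, f z = ‖g‖⁻¹ * g z := fun z => by rw [hf]; rfl
  have hi : 0 < ‖g‖⁻¹ := inv_pos.2 hn
  have hf1 : ‖f‖ = 1 := by
    rw [hf, norm_smul, norm_inv, norm_norm, inv_mul_cancel₀ hn.ne']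
  have hT0' : ∀ z ∈ T₀, f z ≤ β := fun z hz => by
    rw [hfz, hβ]
    exact mul_le_mul_of_nonneg_left (hg1 z hz) hi.le
  have hTi : ∀ z ∈ interior T, β < f z := fun z hz => by
    rw [hfz, hβ]
    exact mul_lt_mul_of_pos_left (hg4 z hz) hi
  -- a point of the interior
  obtain ⟨p, hpT, hpb⟩ : ∃ p, p ∈ interior T ∧ ‖p - x‖ < d := by
    obtain ⟨q, hqT, hqb⟩ := hm
    have h1 : q ∈ closure (interior T) := by
      rw [(hT.convex T hT1).closure_interior_eq_closure_of_nonempty_interior (hT.int T hT1)]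
      exact subset_closure hqT
    obtain ⟨p, hp1, hp2⟩ := mem_closure_iff.1 h1 (ball x d) isOpen_ball hqb
    exact ⟨p, hp2, by rw [← dist_eq_norm]; exact hp1⟩
  refine ⟨f, β, hf1, ?_, ?_⟩
  · have h1 := hTi p hpT
    have h2 : f p - f x ≤ ‖p - x‖ := by
      rw [← map_sub]
      refine (le_abs_self _).trans ?_
      rw [← Real.norm_eq_abs]
      have := f.le_opNorm (p - x)
      rwa [hf1, one_mul] at this
    linarith
  · intro z hz1 hz2
    obtain ⟨W, hW⟩ : ∃ W : Set X, W = ball x ρ ∩ {z | β < f z} := ⟨_, rfl⟩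
    have hWp : IsPreconnected W := by
      rw [hW]
      exact ((convex_ball x ρ).inter ((convex_Ioi β).is_linear_preimage f.toLinearMap.isLinear)).isPreconnected
    have hsub : W ⊆ interior T ∪ Tᶜ := by
      intro y hy
      rw [hW] at hy
      by_cases hyT : y ∈ T
      · left
        by_contra hyi
        have h1 : y ∈ frontier T := ⟨subset_closure hyT, hyi⟩
        have h2 := hbd T hT1 y h1 (by rw [← dist_eq_norm]; exact hy.1)
        have h3 := hT0' y h2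
        have h4 : β < f y := hy.2
        linarith
      · exact Or.inr hyT
    have hdis : Disjoint (interior T) Tᶜ :=
      (disjoint_compl_right (a := T)).mono_left interior_subset
    have hne' : (W ∩ interior T).Nonempty := by
      refine ⟨p, ?_, hpT⟩
      rw [hW]
      refine ⟨?_, hTi p hpT⟩
      rw [mem_ball, dist_eq_norm]
      linarith
    have := hWp.subset_left_of_subset_union isOpen_interior (hT.closed T hT1).isOpen_compl hdis hsub hne'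
    apply this
    rw [hW]
    exact ⟨by rw [mem_ball, dist_eq_norm]; exact hz1, hz2⟩

/-- almost norming vectors -/
theorem norming (f : X →L[ℝ] ℝ) (hf : ‖f‖ = 1) : ∃ v, ‖v‖ ≤ 1 ∧ 99 / 100 < f v := by
  obtain ⟨v, hv1, hv2⟩ := f.exists_lt_apply_of_lt_opNorm (r := 99 / 100) (by rw [hf]; norm_num)
  rw [Real.norm_eq_abs] at hv2
  rcases le_total 0 (f v) with h | h
  · rw [abs_of_nonneg h] at hv2
    exact ⟨v, hv1.le, hv2⟩
  · rw [abs_of_nonpos h] at hv2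
    refine ⟨-v, by rw [norm_neg]; exact hv1.le, ?_⟩
    rw [map_neg]
    exact hv2

theorem ap (f : X →L[ℝ] ℝ) (hf : ‖f‖ = 1) {v : X} (hv : ‖v‖ ≤ 1) : |f v| ≤ 1 := by
  rw [← Real.norm_eq_abs]
  have := f.le_opNorm v
  rw [hf, one_mul] at this
  exact this.trans hv

/-- two disjoint tiles: `f' v` is close to `-1` -/
theorem opposite {f f' : X →L[ℝ] ℝ} (hf : ‖f‖ = 1)
    (hdis : ∀ w, ‖w‖ ≤ 1 → 1 / 100 < f w → ¬ 1 / 100 < f' w) {v v' : X} (hv : ‖v‖ ≤ 1)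
    (hv' : ‖v'‖ ≤ 1) (h1 : 99 / 100 < f v) (h2 : 99 / 100 < f' v') : f' v ≤ -(93 / 100) := by
  have hw : ‖(51 / 100 : ℝ) • v + (49 / 100 : ℝ) • v'‖ ≤ 1 := by
    refine (norm_add_le _ _).trans ?_
    rw [norm_smul, norm_smul, Real.norm_of_nonneg (by norm_num), Real.norm_of_nonneg (by norm_num)]
    linarith
  have h3 := abs_le.1 (ap f hf hv')
  have h4 : 1 / 100 < f ((51 / 100 : ℝ) • v + (49 / 100 : ℝ) • v') := by
    rw [map_add, map_smul, map_smul, smul_eq_mul, smul_eq_mul]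
    linarith [h3.1]
  have h5 := hdis _ hw h4
  rw [map_add, map_smul, map_smul, smul_eq_mul, smul_eq_mul] at h5
  linarith

end

/-- (BDT) -/
theorem t_BDT (h : S_SET.{u}) : S_BDT.{u} := by
  intro X _ _ 𝒯 hT T₀ h0 x hx hs ρ hρ
  by_contra hcon
  have hbd : ∀ S ∈ 𝒯, ∀ y ∈ frontier S, ‖y - x‖ < ρ → y ∈ T₀ := by
    intro S hS y hy hyx
    by_contra hy0
    exact hcon ⟨S, hS, y, hy, hyx, hy0⟩
  have hd : 0 < ρ / 200 := by positivity
  have hinf := (hs (ρ / 200) hd).sdiff (Set.finite_singleton T₀)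
  obtain ⟨F, hF, hF3⟩ := hinf.exists_subset_card_eq 3
  obtain ⟨T1, T2, T3, h12, h13, h23, rfl⟩ := Finset.card_eq_three.1 hF3
  have key : ∀ T ∈ ({T1, T2, T3} : Finset (Set X)), ∃ (f : X →L[ℝ] ℝ), ‖f‖ = 1 ∧
      ∀ w, ‖w‖ ≤ 1 → 1 / 100 < f w → x + (ρ / 2) • w ∈ interior T := by
    intro T hTF
    obtain ⟨⟨hT1, hT2⟩, hT3⟩ := hF hTF
    obtain ⟨f, β, hf1, hf2, hf3⟩ := half h hT h0 hT1 (fun e => hT3 e.symm) hx (d := ρ / 200)
      (by linarith) hbd hT2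
    refine ⟨f, hf1, fun w hw hfw => hf3 _ ?_ ?_⟩
    · rw [add_sub_cancel_left, norm_smul, Real.norm_of_nonneg (by positivity)]
      nlinarith
    · rw [map_add, map_smul, smul_eq_mul]
      nlinarith
  have hmem : ∀ T ∈ ({T1, T2, T3} : Finset (Set X)), T ∈ 𝒯 := fun T hTF => (hF hTF).1.1
  have hdis : ∀ S ∈ ({T1, T2, T3} : Finset (Set X)), ∀ T ∈ ({T1, T2, T3} : Finset (Set X)), S ≠ T →
      ∀ z, z ∈ interior S → z ∉ interior T := fun S hS T hTT hne z hz hz' =>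
    (Set.disjoint_left.1 (hT.dis (hmem S hS) (hmem T hTT) hne)) hz hz'
  have m1 : T1 ∈ ({T1, T2, T3} : Finset (Set X)) := by simp
  have m2 : T2 ∈ ({T1, T2, T3} : Finset (Set X)) := by simp
  have m3 : T3 ∈ ({T1, T2, T3} : Finset (Set X)) := by simp
  obtain ⟨f1, hf1, k1⟩ := key T1 m1
  obtain ⟨f2, hf2, k2⟩ := key T2 m2
  obtain ⟨f3, hf3, k3⟩ := key T3 m3
  obtain ⟨v1, hv1, hw1⟩ := norming f1 hf1
  obtain ⟨v2, hv2, hw2⟩ := norming f2 hf2
  obtain ⟨v3, hv3, hw3⟩ := norming f3 hf3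
  have e2 := opposite hf1 (f' := f2)
    (fun w hw h1 h2 => hdis T1 m1 T2 m2 h12 _ (k1 w hw h1) (k2 w hw h2)) hv1 hv2 hw1 hw2
  have e3 := opposite hf1 (f' := f3)
    (fun w hw h1 h2 => hdis T1 m1 T3 m3 h13 _ (k1 w hw h1) (k3 w hw h2)) hv1 hv3 hw1 hw3
  have hn : ‖-v1‖ ≤ 1 := by rw [norm_neg]; exact hv1
  exact hdis T2 m2 T3 m3 h23 _ (k2 (-v1) hn (by rw [map_neg]; linarith))
    (k3 (-v1) hn (by rw [map_neg]; linarith))

end Pool.Agent.N402.PC
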